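import Mathlib
import Pool.Agent.H964.CW.Stm
import Pool.Agent.H972.QC.ALG
import Pool.Agent.H686.QC.FRZ
import Pool.Agent.H200.QC.M2

/-!
# Project CW, task DSM: second moment of the partition function with drift
-/

set_option autoImplicit false

open MeasureTheory ProbabilityTheory Filter Finset

namespace Pool.Agent.H231.CW

open Pool.Agent.H964.QC Pool.Agent.H964.CW
open Pool.Agent.H200.QC (UU_eq rangeIcc two_of_four dl dl_nonneg)

theorem rr_nonneg (n : ℕ) : 0 ≤ rr n := by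
  unfold rr
  positivity

theorem UU_Icc (s : ℝ) (n : ℕ) : UU s n = 1 + s * ∑ i ∈ Icc 1 n, rr i * UU s (n - i) := by
  rw [UU_eq, rangeIcc (fun a b => rr a * UU s b) n]

theorem UU_one_le {s : ℝ} (hs : 0 ≤ s) (n : ℕ) : 1 ≤ UU s n := by
  induction n using Nat.strong_induction_on with
  | _ n ih =>
    rw [UU_Icc]
    have : 0 ≤ ∑ i ∈ Icc 1 n, rr i * UU s (n - i) := by
      refine Finset.sum_nonneg fun i hi => ?_
      rw [mem_Icc] at hi
      have := ih (n - i) (by omega)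
      exact mul_nonneg (rr_nonneg i) (by linarith)
    nlinarith

theorem UU_mono {s : ℝ} (hs : 0 ≤ s) (n : ℕ) : ∀ m, m ≤ n → UU s m ≤ UU s n := by
  induction n using Nat.strong_induction_on with
  | _ n ih =>
    intro m hm
    rw [UU_Icc s m, UU_Icc s n]
    have h1 : ∑ i ∈ Icc 1 m, rr i * UU s (m - i) ≤ ∑ i ∈ Icc 1 n, rr i * UU s (n - i) := by
      calc ∑ i ∈ Icc 1 m, rr i * UU s (m - i) ≤ ∑ i ∈ Icc 1 m, rr i * UU s (n - i) := by
            refine Finset.sum_le_sum fun i hi => ?_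
            rw [mem_Icc] at hi
            exact mul_le_mul_of_nonneg_left (ih (n - i) (by omega) (m - i) (by omega))
              (rr_nonneg i)
        _ ≤ ∑ i ∈ Icc 1 n, rr i * UU s (n - i) := by
            refine Finset.sum_le_sum_of_subset_of_nonneg (Finset.Icc_subset_Icc_right hm) ?_
            intro i _ _
            have := UU_one_le hs (n - i)
            exact mul_nonneg (rr_nonneg i) (by linarith)
    have := mul_le_mul_of_nonneg_left h1 hs
    linarith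

section walk

variable {C0 : ℝ} {N0 M : ℕ} [NeZero M]

omit [NeZero M] in
theorem q1_one (u : ZMod M) : q1 M 1 u = ((if u = 1 then 1 else 0) + if u = -1 then 1 else 0) / 2 := by
  have h1 : (u - 1 = 0) ↔ u = 1 := sub_eq_zero
  have h2 : (u + 1 = 0) ↔ u = -1 := by rw [eq_neg_iff_add_eq_zero]
  simp only [q1, h1, h2]

theorem sum_q1 : ∑ u : ZMod M, q1 M 1 u = 1 := by
  simp only [q1_one]
  rw [← Finset.sum_div, Finset.sum_add_distrib, Finset.sum_ite_eq' univ, Finset.sum_ite_eq' univ]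
  simp

theorem sum_q1_sg (hM : M = 4 * N0 + 4) : ∑ u : ZMod M, q1 M 1 u * sg u = 0 := by
  have hne : (-1 : ZMod M) ≠ 1 := by
    intro h
    have h2 : ((2 : ℕ) : ZMod M) = 0 := by
      push_cast
      linear_combination -h
    rw [ZMod.natCast_eq_zero_iff] at h2
    have := Nat.le_of_dvd (by norm_num) h2
    omega
  have h1 : ∀ u : ZMod M, q1 M 1 u * sg u =
      ((if u = 1 then sg u else 0) + if u = -1 then sg u else 0) / 2 := by
    intro u
    rw [q1_one]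
    split_ifs <;> ring
  simp only [h1]
  rw [← Finset.sum_div, Finset.sum_add_distrib, Finset.sum_ite_eq' univ, Finset.sum_ite_eq' univ]
  simp only [mem_univ, if_true]
  unfold sg
  rw [if_pos rfl, if_neg hne]
  norm_num

theorem ka_sum (W : Wlk (ZMod M × ZMod M) C0 N0) (hW : IsTor W) (a : ℝ) (y : ZMod M × ZMod M) :
    ∑ z, ka W a y z = 1 := by
  unfold ka
  have h1 : ∀ z : ZMod M × ZMod M, W.K 1 y z * (1 + a * sg (z.1 - y.1)) =
      W.K 1 y z + a * ((q1 M 1 (z.1 - y.1) * sg (z.1 - y.1)) * q1 M 1 (z.2 - y.2)) := by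
    intro z
    rw [hW.K_eq]
    ring
  simp only [h1]
  rw [Finset.sum_add_distrib, W.K_sum, ← Finset.mul_sum, Fintype.sum_prod_type]
  simp only [← Finset.mul_sum]
  have h2 : ∑ z1 : ZMod M, q1 M 1 (z1 - y.1) * sg (z1 - y.1) = 0 := by
    rw [← sum_q1_sg (M := M) (N0 := N0) hW.hM]
    exact Fintype.sum_equiv (Equiv.subRight y.1) _ _ fun x => rfl
  rw [← Finset.sum_mul, h2]
  ring

theorem dw_mass (W : Wlk (ZMod M × ZMod M) C0 N0) (hW : IsTor W) (A : ℕ → ℝ) (T : ℕ)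
    (u : ZMod M × ZMod M → ℝ) (n : ℕ) : ∑ z, dw W A T u n z = ∑ z, u z := by
  induction n with
  | zero => rfl
  | succ n ih =>
    rw [← ih]
    have h : ∀ z, dw W A T u (n + 1) z = ∑ y, dw W A T u n y * ka W (A (T - n)) y z := fun z => rfl
    simp only [h]
    rw [Finset.sum_comm]
    refine Finset.sum_congr rfl fun y _ => ?_
    rw [← Finset.mul_sum, ka_sum W hW, mul_one]

/-- one step of the field, tested against a weight -/
theorem dz_step (W : Wlk (ZMod M × ZMod M) C0 N0) (A : ℕ → ℝ) (u : ZMod M × ZMod M → ℝ)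
    (x : ℕ → ZMod M × ZMod M → ℝ) (j : ℕ) :
    ∑ y, u y * dz W A (fun _ _ => 1) x (j + 1) y =
      ∑ z, (∑ y, u y * ka W (A (j + 1)) y z) * dz W A (fun _ _ => 1) x j z +
      ∑ z, ((∑ y, u y * ka W (A (j + 1)) y z) * dz W A (fun _ _ => 1) x j z) * x (j + 1) z := by
  have h : ∀ y, dz W A (fun _ _ => 1) x (j + 1) y =
      ∑ z, ka W (A (j + 1)) y z * 1 * ((1 + x (j + 1) z) * dz W A (fun _ _ => 1) x j z) :=
    fun y => rfl
  simp only [h, Finset.mul_sum]
  rw [Finset.sum_comm, ← Finset.sum_add_distrib]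
  refine Finset.sum_congr rfl fun z _ => ?_
  simp only [Finset.sum_mul]
  rw [← Finset.sum_add_distrib]
  refine Finset.sum_congr rfl fun y _ => by ring

end walk

section prob

variable {C0 : ℝ} {N0 M : ℕ} [NeZero M] {Ω : Type} [MeasurableSpace Ω] {P : Measure Ω}
  [IsProbabilityMeasure P] {s2 κ : ℝ} {η : ℕ → ZMod M × ZMod M → Ω → ℝ}

theorem step (hD : S_DZB) (hI : S_IND) (W : Wlk (ZMod M × ZMod M) C0 N0) (hW : IsTor W)
    (hη : Noise P s2 κ η) (A : ℕ → ℝ) (hA1 : ∀ j, |A j| ≤ 1) (u u' : ZMod M × ZMod M → ℝ)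
    (hu' : ∀ z, 0 ≤ u' z) (j : ℕ) (hu : ∀ z, u' z = ∑ y, u y * ka W (A (j + 1)) y z) :
    ∫ ω, (∑ y, u y * dz W A (fun _ _ => 1) (cfg η ω) (j + 1) y) ^ 2 ∂P =
      ∫ ω, (∑ y, u' y * dz W A (fun _ _ => 1) (cfg η ω) j y) ^ 2 ∂P +
        s2 * ∑ z, (u' z) ^ 2 * ∫ ω, (dz W A (fun _ _ => 1) (cfg η ω) j z) ^ 2 ∂P := by
  obtain ⟨hpos, hmeas, hdep, hlp⟩ := hD C0 N0 M W hW A (fun _ _ => 1) hA1 (fun _ _ => zero_le_one)
    (fun _ _ => le_rfl)
  have h8 : ∀ j z, MemLp (fun ω => dz W A (fun _ _ => 1) (cfg η ω) j z) 4 P :=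
    fun j z => (hlp Ω P s2 κ η hη j z).1
  obtain ⟨-, hind, -⟩ := hI (ZMod M × ZMod M) Ω P s2 κ η hη j
  have hcut : ∀ (x : ℕ → ZMod M × ZMod M → ℝ) z,
      dz W A (fun _ _ => 1) x j z = dz W A (fun _ _ => 1) (cut j x) j z := by
    intro x z
    refine hdep _ _ j z fun i v hi _ => ?_
    unfold cut
    rw [if_pos (by omega)]
  have hcfg : Measurable (fun ω => cfg η ω) := by
    refine measurable_pi_lambda _ fun n => measurable_pi_lambda _ fun v => ?_
    exact hη.meas n v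
  let f : (ℕ → ZMod M × ZMod M → ℝ) × (ZMod M × ZMod M → ℝ) → ℝ := fun q =>
    (∑ z, u' z * dz W A (fun _ _ => 1) q.1 j z +
      ∑ z, (u' z * dz W A (fun _ _ => 1) q.1 j z) * q.2 z) ^ 2
  have hf : Measurable f := by
    refine Measurable.pow_const ?_ 2
    refine Measurable.add ?_ ?_
    · exact Finset.measurable_sum _ fun z _ => ((hmeas j z).comp measurable_fst).const_mul _
    · refine Finset.measurable_sum _ fun z _ => ?_
      refine (((hmeas j z).comp measurable_fst).const_mul _).mul ?_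
      exact (measurable_pi_apply z).comp measurable_snd
  have hcutm : Measurable (fun x : ℕ → ZMod M × ZMod M → ℝ => cut j x) := by
    refine measurable_pi_lambda _ fun n => measurable_pi_lambda _ fun v => ?_
    unfold cut
    by_cases h : n ≤ j
    · simp only [h, if_true]
      exact (measurable_pi_apply v).comp (measurable_pi_apply n)
    · simp only [h, if_false]
      exact measurable_const
  have hX : Measurable (fun ω => cut j (cfg η ω)) := hcutm.comp hcfg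
  have hY : Measurable (fun ω (v : ZMod M × ZMod M) => η (j + 1) v ω) :=
    measurable_pi_lambda _ fun v => hη.meas _ v
  have hfe : ∀ ω, f (cut j (cfg η ω), fun v => η (j + 1) v ω) =
      (∑ y, u y * dz W A (fun _ _ => 1) (cfg η ω) (j + 1) y) ^ 2 := by
    intro ω
    simp only [f]
    rw [dz_step]
    simp only [← hcut, hu]
    rfl
  have hsumLp : ∀ (v : ZMod M × ZMod M → ℝ) (j : ℕ),
      MemLp (fun ω => ∑ y, v y * dz W A (fun _ _ => 1) (cfg η ω) j y) 4 P := fun v j =>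
    memLp_finsetSum _ fun z _ => (h8 j z).const_mul _
  have hint : Integrable (fun ω => f (cut j (cfg η ω), fun v => η (j + 1) v ω)) P := by
    simp only [hfe]
    exact (two_of_four (hsumLp u (j + 1))).integrable_sq
  obtain ⟨hmain, -, -⟩ := Pool.Agent.H686.QC.t_FRZ Ω (ℕ → ZMod M × ZMod M → ℝ)
    (ZMod M × ZMod M → ℝ) ℝ P (fun ω => cut j (cfg η ω)) (fun ω v => η (j + 1) v ω) f hX hY hf
    hind hint
  simp only [hfe] at hmain
  rw [hmain]
  have hinner : ∀ ω, ∫ ω', f (cut j (cfg η ω), fun v => η (j + 1) v ω') ∂P =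
      (∑ y, u' y * dz W A (fun _ _ => 1) (cfg η ω) j y) ^ 2 +
        s2 * ∑ z, (u' z) ^ 2 * (dz W A (fun _ _ => 1) (cfg η ω) j z) ^ 2 := by
    intro ω
    have hp : ∀ z, 0 ≤ u' z * dz W A (fun _ _ => 1) (cfg η ω) j z := by
      intro z
      exact mul_nonneg (hu' z) (hpos (cfg η ω) (fun n v => hη.gt n v ω) j z).1
    have h1 := (Pool.Agent.H972.QC.t_ALG (ZMod M × ZMod M) Ω P s2 κ η hη (j + 1)
      (∑ y, u' y * dz W A (fun _ _ => 1) (cfg η ω) j y) 0
      (fun z => u' z * dz W A (fun _ _ => 1) (cfg η ω) j z)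
      (fun z => u' z * dz W A (fun _ _ => 1) (cfg η ω) j z) hp hp).1
    simp only [f, ← hcut]
    rw [h1]
    simp only [mul_pow]
  simp only [hinner]
  have hZ2 : ∀ z, Integrable (fun ω => (dz W A (fun _ _ => 1) (cfg η ω) j z) ^ 2) P := fun z =>
    (two_of_four (h8 j z)).integrable_sq
  rw [integral_add]
  · rw [integral_const_mul, integral_finsetSum]
    · simp only [integral_const_mul]
    · intro z _
      exact (hZ2 z).const_mul _
  · exact (two_of_four (hsumLp u' j)).integrable_sq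
  · refine Integrable.const_mul ?_ _
    exact integrable_finsetSum _ fun z _ => (hZ2 z).const_mul _

theorem expand (hB : S_NB) (hD : S_DZB) (hI : S_IND) (W : Wlk (ZMod M × ZMod M) C0 N0)
    (hW : IsTor W) (hη : Noise P s2 κ η) (A : ℕ → ℝ) (a0 : ℝ) (h0 : 0 ≤ a0) (h1 : a0 ≤ 1 / 2)
    (hA : ∀ j, |A j| ≤ a0) (T : ℕ) (hT : T ≤ N0) (u : ZMod M × ZMod M → ℝ) (hu : ∀ z, 0 ≤ u z) :
    ∫ ω, (∑ y, u y * dz W A (fun _ _ => 1) (cfg η ω) T y) ^ 2 ∂P = (∑ y, u y) ^ 2 +
      s2 * ∑ n ∈ Icc 1 T, ∑ z, (dw W A T u n z) ^ 2 *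
        ∫ ω, (dz W A (fun _ _ => 1) (cfg η ω) (T - n) z) ^ 2 ∂P := by
  have hA1 : ∀ j, |A j| ≤ 1 := fun j => (hA j).trans (by linarith)
  have key : ∀ n, n ≤ T → ∫ ω, (∑ y, u y * dz W A (fun _ _ => 1) (cfg η ω) T y) ^ 2 ∂P =
      ∫ ω, (∑ y, dw W A T u n y * dz W A (fun _ _ => 1) (cfg η ω) (T - n) y) ^ 2 ∂P +
      s2 * ∑ n ∈ Icc 1 n, ∑ z, (dw W A T u n z) ^ 2 *
        ∫ ω, (dz W A (fun _ _ => 1) (cfg η ω) (T - n) z) ^ 2 ∂P := by
    intro n
    induction n with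
    | zero =>
      intro _
      simp [dw]
    | succ n ih =>
      intro hn
      rw [ih (by omega), Finset.sum_Icc_succ_top (by omega)]
      have h2 : T - n = (T - (n + 1)) + 1 := by omega
      have h3 := step hD hI W hW hη A hA1 (dw W A T u n) (dw W A T u (n + 1))
        (hB C0 N0 M W hW A a0 T (n + 1) u h0 h1 hA hn (by omega) hu).1 (T - (n + 1)) (by
          intro z
          rw [← h2]
          rfl)
      rw [← h2] at h3
      rw [h3]
      ring
  rw [key T le_rfl]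
  have h4 : ∀ ω, ∑ y, dw W A T u T y * dz W A (fun _ _ => 1) (cfg η ω) (T - T) y = ∑ y, u y := by
    intro ω
    rw [Nat.sub_self, ← dw_mass W hW A T u T]
    refine Finset.sum_congr rfl fun y _ => ?_
    have : dz W A (fun _ _ => 1) (cfg η ω) 0 y = 1 := rfl
    rw [this, mul_one]
  simp only [h4]
  simp

theorem second (hB : S_NB) (hD : S_DZB) (hI : S_IND) (W : Wlk (ZMod M × ZMod M) C0 N0)
    (hW : IsTor W) (hη : Noise P s2 κ η) (hs2 : 0 ≤ s2) (A : ℕ → ℝ) (a0 : ℝ) (h0 : 0 ≤ a0)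
    (h1 : a0 ≤ 1 / 2) (hA : ∀ j, |A j| ≤ a0) (j : ℕ) (hj : j ≤ N0) (y : ZMod M × ZMod M) :
    ∫ ω, (dz W A (fun _ _ => 1) (cfg η ω) j y) ^ 2 ∂P ≤ UU (s2 / (1 - a0 ^ 2)) j := by
  induction j using Nat.strong_induction_on generalizing y with
  | _ j ih =>
    have hpos : 0 < 1 - a0 ^ 2 := by nlinarith
    have hs' : 0 ≤ s2 / (1 - a0 ^ 2) := div_nonneg hs2 hpos.le
    have h2 := expand hB hD hI W hW hη A a0 h0 h1 hA j hj (dl y) (dl_nonneg y)
    have h3 : ∀ ω, ∑ v, dl y v * dz W A (fun _ _ => 1) (cfg η ω) j v =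
        dz W A (fun _ _ => 1) (cfg η ω) j y := by
      intro ω
      unfold dl
      simp
    have h4 : ∑ v, dl y v = 1 := by
      unfold dl
      simp
    simp only [h3, h4] at h2
    rw [h2, UU_Icc, one_pow]
    refine add_le_add le_rfl ?_
    rw [Finset.mul_sum, Finset.mul_sum]
    refine Finset.sum_le_sum fun n hn => ?_
    rw [mem_Icc] at hn
    have hn2 := (hB C0 N0 M W hW A a0 j n (dl y) h0 h1 hA hn.2 (by omega) (dl_nonneg y)).2.1
    rw [h4, one_pow, one_mul] at hn2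
    have hU := UU_one_le hs' (j - n)
    have h5 : ∑ z, (dw W A j (dl y) n z) ^ 2 *
        ∫ ω, (dz W A (fun _ _ => 1) (cfg η ω) (j - n) z) ^ 2 ∂P ≤
        (∑ z, (dw W A j (dl y) n z) ^ 2) * UU (s2 / (1 - a0 ^ 2)) (j - n) := by
      rw [Finset.sum_mul]
      refine Finset.sum_le_sum fun z _ => ?_
      exact mul_le_mul_of_nonneg_left (ih (j - n) (by omega) (by omega) z) (sq_nonneg _)
    calc s2 * ∑ z, (dw W A j (dl y) n z) ^ 2 *
          ∫ ω, (dz W A (fun _ _ => 1) (cfg η ω) (j - n) z) ^ 2 ∂P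
        ≤ s2 * ((∑ z, (dw W A j (dl y) n z) ^ 2) * UU (s2 / (1 - a0 ^ 2)) (j - n)) :=
          mul_le_mul_of_nonneg_left h5 hs2
      _ ≤ s2 * ((rr n / (1 - a0 ^ 2)) * UU (s2 / (1 - a0 ^ 2)) (j - n)) := by
          refine mul_le_mul_of_nonneg_left ?_ hs2
          exact mul_le_mul_of_nonneg_right hn2 (by linarith)
      _ = s2 / (1 - a0 ^ 2) * (rr n * UU (s2 / (1 - a0 ^ 2)) (j - n)) := by ring

end prob

theorem t_DSM : S_DSM := by
  intro hB hD hI C0 N0 M _ W hW A a0 T u h0 h1 hA hT hu Ω _ P _ s2 κ s' η hs2 hη hs'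
  have hpos : 0 < 1 - a0 ^ 2 := by nlinarith
  have hle1 : 1 - a0 ^ 2 ≤ 1 := by nlinarith
  have hs0 : 0 ≤ s' := by rw [hs']; exact div_nonneg hs2 hpos.le
  have hs2' : s2 ≤ s' := by
    rw [hs', le_div_iff₀ hpos]
    nlinarith
  rw [expand hB hD hI W hW hη A a0 h0 h1 hA T hT u hu]
  refine add_le_add le_rfl ?_
  rw [mul_assoc, Finset.mul_sum, Finset.mul_sum, Finset.mul_sum]
  refine Finset.sum_le_sum fun n hn => ?_
  rw [mem_Icc] at hn
  have hU := UU_one_le hs0 T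
  obtain ⟨-, hn2, hn3⟩ := hB C0 N0 M W hW A a0 T n u h0 h1 hA hn.2 (by omega) hu
  have hn3 := hn3 hn.1
  have hsq : 0 ≤ ∑ z, (dw W A T u n z) ^ 2 := Finset.sum_nonneg fun z _ => sq_nonneg _
  have h5 : ∑ z, (dw W A T u n z) ^ 2 *
      ∫ ω, (dz W A (fun _ _ => 1) (cfg η ω) (T - n) z) ^ 2 ∂P ≤
      (∑ z, (dw W A T u n z) ^ 2) * UU s' T := by
    rw [Finset.sum_mul]
    refine Finset.sum_le_sum fun z _ => ?_
    refine mul_le_mul_of_nonneg_left ?_ (sq_nonneg _)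
    refine (second hB hD hI W hW hη hs2 A a0 h0 h1 hA (T - n) (by omega) z).trans ?_
    rw [← hs']
    exact UU_mono hs0 T _ (by omega)
  have h6 : s2 * ∑ z, (dw W A T u n z) ^ 2 ≤ s' * bb W a0 u n := by
    unfold bb
    rcases min_choice ((∑ z, u z) ^ 2 * rr n) (ov W u ((n + 1) / 2) + (2 * a0) ^ n * ∑ z, (u z) ^ 2)
      with h | h
    · rw [h]
      calc s2 * ∑ z, (dw W A T u n z) ^ 2 ≤ s2 * ((∑ z, u z) ^ 2 * (rr n / (1 - a0 ^ 2))) :=
            mul_le_mul_of_nonneg_left hn2 hs2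
        _ = s' * ((∑ z, u z) ^ 2 * rr n) := by rw [hs']; ring
    · rw [h]
      calc s2 * ∑ z, (dw W A T u n z) ^ 2 ≤ s' * ∑ z, (dw W A T u n z) ^ 2 :=
            mul_le_mul_of_nonneg_right hs2' hsq
        _ ≤ s' * (ov W u ((n + 1) / 2) + (2 * a0) ^ n * ∑ z, (u z) ^ 2) :=
            mul_le_mul_of_nonneg_left hn3 hs0
  calc s2 * ∑ z, (dw W A T u n z) ^ 2 *
        ∫ ω, (dz W A (fun _ _ => 1) (cfg η ω) (T - n) z) ^ 2 ∂P
      ≤ s2 * ((∑ z, (dw W A T u n z) ^ 2) * UU s' T) := mul_le_mul_of_nonneg_left h5 hs2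
    _ = (s2 * ∑ z, (dw W A T u n z) ^ 2) * UU s' T := by ring
    _ ≤ (s' * bb W a0 u n) * UU s' T := mul_le_mul_of_nonneg_right h6 (by linarith)
    _ = s' * (UU s' T * bb W a0 u n) := by ring

end Pool.Agent.H231.CW
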